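import Pool.Agent.Lib.SRO2.Defs

/-!
# The number of signatures
-/

open Finset

namespace Pool.Agent.Lib.SRO2

namespace Count_

variable {V : Type}

/-- The code of a list: `t` cells. -/
def code (t : ℕ) (l : List V) : Fin t → Option V := fun i => l[(i : ℕ)]?

theorem code_inj {t : ℕ} {l l' : List V} (h : l.length ≤ t) (h' : l'.length ≤ t)
    (e : code t l = code t l') : l = l' := by
  apply List.ext_getElem?
  intro i
  by_cases hi : i < t
  · exact congrFun e ⟨i, hi⟩
  · rw [List.getElem?_eq_none (by omega), List.getElem?_eq_none (by omega)]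

/-- The code of a signature. -/
noncomputable def sig (t : ℕ) (σ : List (V × Multiset V)) :
    Fin t → Option V × (Fin t → Option V) := fun i =>
  match σ[(i : ℕ)]? with
  | none => (none, fun _ => none)
  | some p => (some p.1, code t p.2.toList)

theorem sig_inj {t : ℕ} {σ σ' : List (V × Multiset V)}
    (h : σ.length ≤ t ∧ ∀ p ∈ σ, p.2.card ≤ t) (h' : σ'.length ≤ t ∧ ∀ p ∈ σ', p.2.card ≤ t)
    (e : sig t σ = sig t σ') : σ = σ' := by
  apply List.ext_getElem?
  intro i
  by_cases hi : i < t
  · have e1 := congrFun e ⟨i, hi⟩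
    simp only [sig] at e1
    rcases hp : σ[i]? with _ | p <;> rcases hq : σ'[i]? with _ | q
    · rfl
    · rw [hp, hq] at e1
      exact absurd (congrArg Prod.fst e1) (by simp)
    · rw [hp, hq] at e1
      exact absurd (congrArg Prod.fst e1) (by simp)
    · rw [hp, hq] at e1
      have e2 : p.1 = q.1 := Option.some.inj (congrArg Prod.fst e1)
      have e3 : code t p.2.toList = code t q.2.toList := congrArg Prod.snd e1
      have h1 := h.2 p (List.mem_of_getElem? hp)
      have h2 := h'.2 q (List.mem_of_getElem? hq)
      have e4 := code_inj (by rwa [Multiset.length_toList]) (by rwa [Multiset.length_toList]) e3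
      have e5 : p.2 = q.2 := by
        rw [← Multiset.coe_toList p.2, ← Multiset.coe_toList q.2, e4]
      rw [Prod.ext e2 e5]
  · rw [List.getElem?_eq_none (by omega), List.getElem?_eq_none (by omega)]

end Count_

theorem stCount : StCount := by
  classical
  intro V _ t 𝒮 h𝒮
  have h1 : 𝒮.card ≤ (univ : Finset (Fin t → Option V × (Fin t → Option V))).card :=
    card_le_card_of_injOn (Count_.sig t) (fun _ _ => mem_coe.2 (mem_univ _))
      fun σ hσ σ' hσ' e => Count_.sig_inj (h𝒮 σ hσ) (h𝒮 σ' hσ') e
  refine h1.trans ?_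
  rw [card_univ, Fintype.card_fun, Fintype.card_prod, Fintype.card_fun, Fintype.card_option,
    Fintype.card_fin, ← pow_succ', ← pow_mul]
  exact Nat.pow_le_pow_right (Nat.succ_pos _) (Nat.mul_le_mul_right _ (by omega))

end Pool.Agent.Lib.SRO2
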