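import Pool.Agent.Lib.SRO.Stmts

/-!
# Alternating branching programs: definitions

A program is a directed graph whose edges are free or carry a test `x i = b`, and with forks:
`fork u v w` means that at `u` one may go on with both `v` and `w`.  Without forks these are the
nondeterministic branching programs.  AND / OR circuits with literals are the programs in which
OR gates are nodes with free edges to their inputs, AND gates are forks, and literals are test edges
to the sink.
-/

open Finset

namespace Pool.Agent.Lib.SRO2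

open Pool.Agent.Lib.SRO

/-- Alternating branching programs over the variables `ι` with set of nodes `V`. -/
structure Prog (ι V : Type) where
  source : V
  sink : V
  edge : V → V → Option (ι × Bool) → Prop
  fork : V → V → V → Prop

/-- `Tree P u l`: there is an accepting tree (proof tree) from the node `u`, all of whose branches
end in the sink, and `l` is the list of its tests, counted with multiplicity. -/
inductive Tree {ι V : Type} (P : Prog ι V) : V → List (ι × Bool) → Prop
  | sink : Tree P P.sink []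
  | free {u v : V} {l : List (ι × Bool)} : P.edge u v none → Tree P v l → Tree P u l
  | test {u v : V} {i : ι} {b : Bool} {l : List (ι × Bool)} :
      P.edge u v (some (i, b)) → Tree P v l → Tree P u ((i, b) :: l)
  | fork {u v w : V} {l l' : List (ι × Bool)} :
      P.fork u v w → Tree P v l → Tree P w l' → Tree P u (l ++ l')

/-- The input `y` is accepted. -/
def Prog.Accepts {ι V : Type} (P : Prog ι V) (y : ι → Bool) : Prop :=
  ∃ l, Tree P P.source l ∧ Agrees y l

/-- The input `y` is accepted by a tree with at most `T` tests of variables of `D`. -/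
def Prog.AcceptsWithin {ι V : Type} [DecidableEq ι] (P : Prog ι V) (D : Finset ι) (T : ℕ)
    (y : ι → Bool) : Prop :=
  ∃ l, Tree P P.source l ∧ Agrees y l ∧ l.countP (fun t => decide (t.1 ∈ D)) ≤ T

/-- The input `y` is accepted by a tree in which at most `k` variables of `D` are tested more than
once (these, and the variables outside `D`, may be tested arbitrarily often). -/
def Prog.AcceptsFew {ι V : Type} [DecidableEq ι] (P : Prog ι V) (D : Finset ι) (k : ℕ)
    (y : ι → Bool) : Prop :=
  ∃ l, Tree P P.source l ∧ Agrees y l ∧ (D.filter fun i => 2 ≤ (l.map Prod.fst).count i).card ≤ k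

/-- Semantic read-once: every accepting tree that is consistent with some input tests each variable
at most once. -/
def Prog.ReadOnce {ι V : Type} (P : Prog ι V) : Prop :=
  ∀ l, Tree P P.source l → (∃ y, Agrees y l) → (l.map Prod.fst).Nodup

/-! ### Derivations with holes -/

/-- `Der P u s H`: a tree from `u` with multiset of tests `s`, in which some branches end in holes;
`H` is the multiset of the nodes at the holes. -/
inductive Der {ι V : Type} (P : Prog ι V) : V → Multiset (ι × Bool) → Multiset V → Prop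
  | hole (u : V) : Der P u 0 {u}
  | sink : Der P P.sink 0 0
  | free {u v : V} {s : Multiset (ι × Bool)} {H : Multiset V} :
      P.edge u v none → Der P v s H → Der P u s H
  | test {u v : V} {i : ι} {b : Bool} {s : Multiset (ι × Bool)} {H : Multiset V} :
      P.edge u v (some (i, b)) → Der P v s H → Der P u ((i, b) ::ₘ s) H
  | fork {u v w : V} {s s' : Multiset (ι × Bool)} {H H' : Multiset V} :
      P.fork u v w → Der P v s H → Der P w s' H' → Der P u (s + s') (H + H')

/-- `Asm P r σ f i K`: the pieces `f i, f (i + 1), …` with signatures `σ` can be plugged into each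
other (in reverse order) to give a tree from `r` with holes `K`. -/
def Asm {ι V : Type} (P : Prog ι V) (r : V) :
    List (V × Multiset V) → (ℕ → Multiset (ι × Bool)) → ℕ → Multiset V → Prop
  | [], f, i, K => Der P r (f i) K
  | (g, H) :: σ, f, i, K => Der P g (f i) H ∧ ∃ H', K = H + H' ∧ Asm P r σ f (i + 1) (g ::ₘ H')

/-! ### Statements of the modules -/

/-- DER: derivations and trees. -/
def StDer : Prop :=
  ∀ (ι V : Type) (P : Prog ι V) (u : V),
    (∀ l, Tree P u l → Der P u (l : Multiset (ι × Bool)) 0) ∧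
    (∀ s, Der P u s 0 → ∃ l : List (ι × Bool), (l : Multiset (ι × Bool)) = s ∧ Tree P u l)

/-- SUBST: plugging a derivation into a hole. -/
def StSubst : Prop :=
  ∀ (ι V : Type) (P : Prog ι V) (u v : V) (s s' : Multiset (ι × Bool)) (H H' : Multiset V),
    Der P u s (v ::ₘ H) → Der P v s' H' → Der P u (s + s') (H + H')

/-- CUT: a derivation of weight at least `2 b` has a subtree of weight in `[b, 2 b)`. -/
def StCut : Prop :=
  ∀ (ι V : Type) (P : Prog ι V) (w : ι × Bool → ℕ) (b : ℕ), 1 ≤ b → (∀ t, w t ≤ 1) →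
    ∀ (u : V) (s : Multiset (ι × Bool)) (H : Multiset V), Der P u s H → 2 * b ≤ (s.map w).sum →
      ∃ (v : V) (s₁ s₂ : Multiset (ι × Bool)) (H₁ H₂ : Multiset V),
        Der P v s₁ H₁ ∧ Der P u s₂ (v ::ₘ H₂) ∧ s = s₁ + s₂ ∧ H = H₁ + H₂ ∧
          b ≤ (s₁.map w).sum ∧ (s₁.map w).sum < 2 * b

/-- PIECES: the decomposition of a tree. -/
def StPieces : Prop :=
  ∀ (ι V : Type) (P : Prog ι V) (w : ι × Bool → ℕ) (b : ℕ), 1 ≤ b → (∀ t, w t ≤ 1) →
    ∀ (r : V) (s : Multiset (ι × Bool)), Der P r s 0 →
      ∃ (σ : List (V × Multiset V)) (f : ℕ → Multiset (ι × Bool)),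
        Asm P r σ f 0 0 ∧ ∑ j ∈ range (σ.length + 1), f j = s ∧
        σ.length * b ≤ (s.map w).sum ∧ (∀ p ∈ σ, p.2.card ≤ σ.length) ∧
        ∀ j, ((f j).map w).sum < 2 * b

/-- MIX: plugging together pieces of two trees. -/
def StMix : Prop :=
  ∀ (ι V : Type) (P : Prog ι V) (r : V) (σ : List (V × Multiset V))
    (f f' : ℕ → Multiset (ι × Bool)) (c : ℕ → Bool), Asm P r σ f 0 0 → Asm P r σ f' 0 0 →
      Der P r (∑ j ∈ range (σ.length + 1), if c j then f j else f' j) 0

/-- COUNT: the number of signatures. -/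
def StCount : Prop :=
  ∀ (V : Type) [Fintype V] (t : ℕ) (𝒮 : Finset (List (V × Multiset V))),
    (∀ σ ∈ 𝒮, σ.length ≤ t ∧ ∀ p ∈ σ, p.2.card ≤ t) →
      𝒮.card ≤ (Fintype.card V + 1) ^ ((t + 2) * t)

/-- GROUP: consecutive pieces of prescribed total weight. -/
def StGroup : Prop :=
  ∀ (t m b : ℕ) (w : ℕ → ℕ), (∀ j, w j < 2 * b) → 3 * (m + 2 * b) ≤ ∑ j ∈ range t, w j →
    ∃ p : Fin 4 → ℕ, p 0 = 0 ∧ Monotone p ∧ p 3 ≤ t ∧ ∀ j : Fin 3,
      m ≤ ∑ i ∈ Ico (p j.castSucc) (p j.succ), w i ∧
        ∑ i ∈ Ico (p j.castSucc) (p j.succ), w i < m + 2 * b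

/-- EXT: from a program to the structure `Str`. -/
def StExt2 : Prop :=
  ∀ (ι V : Type) [DecidableEq ι] [Fintype V] (P : Prog ι V) (n k m b t B : ℕ) (e : Fin n → ι)
    (z : ι → Bool) (F : Set (Fin n → Bool)), Function.Injective e →
    (∀ x : Fin n → Bool, P.Accepts (Function.extend e x z) → x ∈ F) →
    (∀ x ∈ F, ∀ i, Function.update x i (!x i) ∉ F) →
    1 ≤ b → 3 * (m + 2 * b) + k ≤ n → n ≤ t * b →
    (∀ X I, Str m F X I → X.card ≤ B) →
    ∀ A : Finset (Fin n → Bool),
      (∀ x ∈ A, P.AcceptsFew (univ.image e) k (Function.extend e x z)) →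
      A.card ≤ (Fintype.card V + 1) ^ ((t + 2) * t) * (t + 2) ^ 3 *
        ((∑ j ∈ range (k + 6 * b + 1), n.choose j) * 2 ^ (k + 6 * b)) * B

/-- MAIN: the lower bound. -/
def StMain2 : Prop :=
  ∃ c : ℝ, 0 < c ∧ ∃ N₀ : ℕ, ∀ N : ℕ, N₀ ≤ N → ∀ (V : Type) [Fintype V] (P : Prog (Fin N) V),
    (Fintype.card V : ℝ) ≤ 2 ^ (c * dim N) →
    (∀ y, P.Accepts y → List.ofFn y ∈ Quartic) → ∀ k : ℕ, (k : ℝ) ≤ c * dim N →
      (Nat.card {y : Fin N → Bool //
        P.AcceptsFew (univ.filter fun i : Fin N => (i : ℕ) < dim N) k y} : ℝ) ≤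
        2 ^ ((N : ℝ) - c * dim N)

/-- TIME: trees with few tests repeat few variables. -/
def StTime : Prop :=
  ∀ (N T : ℕ) (V : Type) (P : Prog (Fin N) V), (∀ y, P.Accepts y → List.ofFn y ∈ Quartic) →
    ∀ y, P.AcceptsWithin (univ.filter fun i : Fin N => (i : ℕ) < dim N) T y →
      P.AcceptsFew (univ.filter fun i : Fin N => (i : ℕ) < dim N) (T - dim N) y

/-- ONCE: semantic read-once programs for the language. -/
def StOnce2 : Prop :=
  ∃ c : ℝ, 0 < c ∧ ∃ N₀ : ℕ, ∀ N : ℕ, N₀ ≤ N → ∀ (V : Type) [Fintype V] (P : Prog (Fin N) V),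
    (∀ y, P.Accepts y ↔ List.ofFn y ∈ Quartic) → P.ReadOnce →
      2 ^ (c * (N : ℝ) ^ (1 / 4 : ℝ)) ≤ (Fintype.card V : ℝ)

end Pool.Agent.Lib.SRO2
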