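import Pool.Agent.Lib.SRO2.Defs
import Pool.Agent.Lib.SRO.Ext

/-!
# Extraction of the structure from an alternating branching program
-/

open Finset

namespace Pool.Agent.Lib.SRO2

open Pool.Agent.Lib.SRO

namespace Ext_

variable {ι V : Type}

/-- Number of tests of the variable `a` in `l`. -/
def ct [DecidableEq ι] (l : Multiset (ι × Bool)) (a : ι) : ℕ := (l.map Prod.fst).count a

theorem ct_add [DecidableEq ι] (l₁ l₂ : Multiset (ι × Bool)) (a : ι) :
    ct (l₁ + l₂) a = ct l₁ a + ct l₂ a := by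
  unfold ct; rw [Multiset.map_add, Multiset.count_add]

theorem ct_sum [DecidableEq ι] (s : Finset ℕ) (f : ℕ → Multiset (ι × Bool)) (a : ι) :
    ct (∑ j ∈ s, f j) a = ∑ j ∈ s, ct (f j) a := by
  classical
  induction s using Finset.induction_on with
  | empty => simp [ct]
  | insert j s hj ih => rw [Finset.sum_insert hj, Finset.sum_insert hj, ct_add, ih]

theorem ct_pos [DecidableEq ι] {l : Multiset (ι × Bool)} {a : ι} :
    0 < ct l a ↔ ∃ b, (a, b) ∈ l := by
  unfold ct
  rw [Multiset.count_pos, Multiset.mem_map]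
  constructor
  · rintro ⟨t, ht, rfl⟩; exact ⟨t.2, ht⟩
  · rintro ⟨b, hb⟩; exact ⟨(a, b), hb, rfl⟩

theorem sum_map_eq [DecidableEq ι] (D : Finset ι) (l : Multiset (ι × Bool)) :
    (l.map fun t => if t.1 ∈ D then 1 else 0).sum = ∑ a ∈ D, ct l a := by
  induction l using Multiset.induction_on with
  | empty => simp [ct]
  | cons t l ih =>
    have h : ∀ a, ct (t ::ₘ l) a = ct l a + if a = t.1 then 1 else 0 := by
      intro a
      unfold ct
      rw [Multiset.map_cons, Multiset.count_cons]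
    rw [Multiset.map_cons, Multiset.sum_cons, ih]
    simp_rw [h]
    rw [Finset.sum_add_distrib, Finset.sum_ite_eq', add_comm]

/-- The pieces of a tree. -/
structure Cut [DecidableEq ι] (P : Prog ι V) {n : ℕ} (k m t : ℕ) (e : Fin n → ι) (z : ι → Bool)
    (x : Fin n → Bool) (σ : List (V × Multiset V)) (p : Fin 4 → ℕ) (O : Finset (Fin n))
    (f : ℕ → Multiset (ι × Bool)) : Prop where
  asm : Asm P P.source σ f 0 0
  len : σ.length ≤ t
  hol : ∀ q ∈ σ, q.2.card ≤ t
  agr : ∀ a < σ.length + 1, ∀ s ∈ f a, Function.extend e x z s.1 = s.2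
  once : ∀ i, i ∉ O → ∑ a ∈ range (σ.length + 1), ct (f a) (e i) = 1
  cO : O.card ≤ k
  p0 : p 0 = 0
  mono : Monotone p
  p3 : p 3 ≤ σ.length + 1
  cnt : ∀ j : Fin 3, (Oᶜ.filter fun i => ∃ a ∈ Ico (p j.castSucc) (p j.succ),
    0 < ct (f a) (e i)).card = m

theorem tested [DecidableEq ι] {P : Prog ι V} {n : ℕ} {e : Fin n → ι} {z : ι → Bool}
    {F : Set (Fin n → Bool)} (he : Function.Injective e)
    (hF : ∀ x : Fin n → Bool, P.Accepts (Function.extend e x z) → x ∈ F)
    (hH : ∀ x ∈ F, ∀ i, Function.update x i (!x i) ∉ F) {x : Fin n → Bool}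
    {l : List (ι × Bool)} (hw : Tree P P.source l)
    (ha : Agrees (Function.extend e x z) l) (i : Fin n) :
    0 < ct (l : Multiset (ι × Bool)) (e i) := by
  by_contra hc
  have hx : x ∈ F := hF x ⟨l, hw, ha⟩
  refine hH x hx i (hF _ ⟨l, hw, fun t ht => ?_⟩)
  rw [← ha t ht]
  by_cases h : ∃ i', e i' = t.1
  · obtain ⟨i', h'⟩ := h
    rw [← h', he.extend_apply, he.extend_apply]
    rw [Function.update_of_ne]
    rintro rfl
    exact hc (ct_pos.2 ⟨t.2, by rw [h']; exact Multiset.mem_coe.2 ht⟩)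
  · rw [Function.extend_apply' _ _ _ h, Function.extend_apply' _ _ _ h]

theorem Ico_disj {p : Fin 4 → ℕ} (hp : Monotone p) {j j' : Fin 3} {a : ℕ}
    (h : a ∈ Ico (p j.castSucc) (p j.succ)) (h' : a ∈ Ico (p j'.castSucc) (p j'.succ)) :
    j = j' := by
  rw [Finset.mem_Ico] at h h'
  by_contra hne
  rcases lt_or_gt_of_ne hne with hlt | hlt
  · have h1 : p j.succ ≤ p j'.castSucc := hp (by
      rw [Fin.le_def, Fin.val_succ, Fin.val_castSucc]; exact hlt)
    omega
  · have h1 : p j'.succ ≤ p j.castSucc := hp (by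
      rw [Fin.le_def, Fin.val_succ, Fin.val_castSucc]; exact hlt)
    omega

theorem exists_cut [DecidableEq ι] (hD : StDer) (hP : StPieces) (hG : StGroup)
    {P : Prog ι V} {n k m b t : ℕ} {e : Fin n → ι} {z : ι → Bool}
    {F : Set (Fin n → Bool)} (he : Function.Injective e)
    (hF : ∀ x : Fin n → Bool, P.Accepts (Function.extend e x z) → x ∈ F)
    (hH : ∀ x ∈ F, ∀ i, Function.update x i (!x i) ∉ F) (hb : 1 ≤ b)
    (hm : 3 * (m + 2 * b) + k ≤ n) (hn : n ≤ t * b) {x : Fin n → Bool}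
    (hx : P.AcceptsFew (univ.image e) k (Function.extend e x z)) :
    ∃ σ p O f, Cut P (k + 6 * b) m t e z x σ p O f := by
  obtain ⟨l, hw, ha, hc⟩ := hx
  have ht := tested he hF hH hw ha
  set O₁ : Finset (Fin n) := univ.filter fun i => 2 ≤ ct (l : Multiset (ι × Bool)) (e i) with hO
  have hk : O₁.card ≤ k := by
    refine le_trans (le_of_eq ?_) hc
    rw [Finset.filter_image, Finset.card_image_of_injective _ he, hO]
    congr 1
    refine Finset.filter_congr fun i _ => ?_
    unfold ct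
    rw [Multiset.map_coe, Multiset.coe_count]
  have hone : ∀ i, i ∉ O₁ → ct (l : Multiset (ι × Bool)) (e i) = 1 := by
    intro i hi
    have h3 := ht i
    rw [hO, Finset.mem_filter] at hi
    have h4 : ¬ 2 ≤ ct (l : Multiset (ι × Bool)) (e i) := fun h => hi ⟨Finset.mem_univ _, h⟩
    omega
  set w : ι × Bool → ℕ := fun t => if t.1 ∈ O₁ᶜ.image e then 1 else 0 with hwdef
  have hws : ∀ s : Multiset (ι × Bool), (s.map w).sum = ∑ i ∈ O₁ᶜ, ct s (e i) := by
    intro s
    rw [hwdef, sum_map_eq, Finset.sum_image fun i _ j _ h => he h]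
  have hw1 : ∀ t, w t ≤ 1 := by
    intro t
    rw [hwdef]; simp only
    split_ifs <;> omega
  have hder := (hD ι V P P.source).1 l hw
  obtain ⟨σ, f, hasm, hsum, hlen, hhol, hlt⟩ := hP ι V P w b hb hw1 P.source _ hder
  have htot : ((l : Multiset (ι × Bool)).map w).sum = O₁ᶜ.card := by
    rw [hws, Finset.sum_congr rfl fun i hi => hone i (Finset.mem_compl.1 hi), Finset.sum_const,
      smul_eq_mul, mul_one]
  have hcc : O₁ᶜ.card + O₁.card = n := by
    rw [Finset.card_compl, Fintype.card_fin]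
    have := Finset.card_le_univ O₁
    rw [Fintype.card_fin] at this
    omega
  have hσ : σ.length ≤ t := by
    rw [htot] at hlen
    exact Nat.le_of_mul_le_mul_right (hlen.trans (by omega)) (by omega : 0 < b)
  have honce1 : ∀ i, i ∉ O₁ → ∑ a ∈ range (σ.length + 1), ct (f a) (e i) = 1 := by
    intro i hi
    rw [← ct_sum, hsum]
    exact hone i hi
  have hsum2 : ∑ a ∈ range (σ.length + 1), ((f a).map w).sum = O₁ᶜ.card := by
    simp_rw [hws]
    rw [Finset.sum_comm, Finset.sum_congr rfl fun i hi => honce1 i (Finset.mem_compl.1 hi),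
      Finset.sum_const, smul_eq_mul, mul_one]
  obtain ⟨p, hp0, hpm, hp3, hpg⟩ := hG (σ.length + 1) m b (fun a => ((f a).map w).sum) hlt
    (by rw [hsum2]; omega)
  have hpr : ∀ j : Fin 3, Ico (p j.castSucc) (p j.succ) ⊆ range (σ.length + 1) := by
    intro j a ha
    rw [Finset.mem_Ico] at ha
    have : p j.succ ≤ p 3 := hpm (Fin.le_last _)
    rw [Finset.mem_range]
    omega
  have huniq : ∀ i, i ∉ O₁ → ∀ a ∈ range (σ.length + 1), ∀ a' ∈ range (σ.length + 1),
      0 < ct (f a) (e i) → 0 < ct (f a') (e i) → a = a' := by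
    intro i hi a ha' a' ha'' h h'
    by_contra hne
    have h3 := honce1 i hi
    have h4 : ct (f a) (e i) + ct (f a') (e i) ≤ ∑ a ∈ range (σ.length + 1), ct (f a) (e i) := by
      rw [← Finset.sum_pair (f := fun a => ct (f a) (e i)) hne]
      refine Finset.sum_le_sum_of_subset fun c hc' => ?_
      rw [Finset.mem_insert, Finset.mem_singleton] at hc'
      rcases hc' with rfl | rfl <;> assumption
    omega
  set I' : Fin 3 → Finset (Fin n) := fun j => O₁ᶜ.filter fun i =>
    ∃ a ∈ Ico (p j.castSucc) (p j.succ), 0 < ct (f a) (e i) with hI'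
  have hmemI' : ∀ j i, i ∈ I' j ↔ i ∉ O₁ ∧ ∃ a ∈ Ico (p j.castSucc) (p j.succ),
      0 < ct (f a) (e i) := by
    intro j i
    rw [hI']; simp only
    rw [Finset.mem_filter, Finset.mem_compl]
  have hI'card : ∀ j, (I' j).card = ∑ a ∈ Ico (p j.castSucc) (p j.succ), ((f a).map w).sum := by
    intro j
    simp_rw [hws]
    rw [Finset.sum_comm, hI', Finset.card_filter]
    refine Finset.sum_congr rfl fun i hi => ?_
    have hi' := Finset.mem_compl.1 hi
    have h3 : ∑ a ∈ Ico (p j.castSucc) (p j.succ), ct (f a) (e i) ≤ 1 := by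
      rw [← honce1 i hi']
      exact Finset.sum_le_sum_of_subset (hpr j)
    by_cases hex : ∃ a ∈ Ico (p j.castSucc) (p j.succ), 0 < ct (f a) (e i)
    · rw [if_pos hex]
      obtain ⟨a, ha', hpos⟩ := hex
      have h4 : ct (f a) (e i) ≤ ∑ a ∈ Ico (p j.castSucc) (p j.succ), ct (f a) (e i) :=
        Finset.single_le_sum (f := fun a => ct (f a) (e i)) (fun _ _ => Nat.zero_le _) ha'
      omega
    · rw [if_neg hex]
      symm
      rw [Finset.sum_eq_zero_iff]
      intro a ha'
      by_contra hne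
      exact hex ⟨a, ha', Nat.pos_of_ne_zero hne⟩
  have hI'disj : ∀ j j' i, i ∈ I' j → i ∈ I' j' → j = j' := by
    intro j j' i hi hi'
    rw [hmemI'] at hi hi'
    obtain ⟨hiO, a, ha1, ha2⟩ := hi
    obtain ⟨_, a', ha1', ha2'⟩ := hi'
    have := huniq i hiO a (hpr j ha1) a' (hpr j' ha1') ha2 ha2'
    rw [← this] at ha1'
    exact Ico_disj hpm ha1 ha1'
  have hsub : ∀ j, ∃ I ⊆ I' j, I.card = m := fun j =>
    Finset.exists_subset_card_eq (by rw [hI'card]; exact (hpg j).1)
  choose I hIs hIc using hsub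
  set O : Finset (Fin n) := O₁ ∪ univ.biUnion fun j => I' j \ I j with hOdef
  have hmemO : ∀ i, i ∉ O ↔ i ∉ O₁ ∧ ∀ j, i ∈ I' j → i ∈ I j := by
    intro i
    rw [hOdef, Finset.mem_union, Finset.mem_biUnion]
    constructor
    · intro h
      refine ⟨fun h' => h (Or.inl h'), fun j hj => ?_⟩
      by_contra hne
      exact h (Or.inr ⟨j, Finset.mem_univ _, Finset.mem_sdiff.2 ⟨hj, hne⟩⟩)
    · rintro ⟨h3, h4⟩ (h | ⟨j, _, h⟩)
      · exact h3 h
      · rw [Finset.mem_sdiff] at h
        exact h.2 (h4 j h.1)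
  refine ⟨σ, p, O, f, ⟨hasm, hσ, fun q hq => (hhol q hq).trans hσ, ?_, ?_, ?_, hp0, hpm, hp3, ?_⟩⟩
  · intro a ha' s hs
    refine ha s ?_
    rw [← Multiset.mem_coe, ← hsum, Multiset.mem_sum]
    exact ⟨a, Finset.mem_range.2 ha', hs⟩
  · intro i hi
    exact honce1 i ((hmemO i).1 hi).1
  · have h5 : (univ.biUnion fun j => I' j \ I j).card ≤ ∑ _j : Fin 3, 2 * b := by
      refine Finset.card_biUnion_le.trans (Finset.sum_le_sum fun j _ => ?_)
      rw [Finset.card_sdiff_of_subset (hIs j), hIc, hI'card]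
      have := (hpg j).2
      omega
    rw [Finset.sum_const, Finset.card_univ, Fintype.card_fin, smul_eq_mul] at h5
    have h6 := Finset.card_union_le O₁ (univ.biUnion fun j => I' j \ I j)
    rw [hOdef]
    omega
  · intro j
    rw [← hIc j]
    congr 1
    ext i
    rw [Finset.mem_filter, Finset.mem_compl, hmemO]
    constructor
    · rintro ⟨⟨h3, h4⟩, h5⟩
      exact h4 j ((hmemI' j i).2 ⟨h3, h5⟩)
    · intro hi
      have h3 := (hmemI' j i).1 (hIs j hi)
      refine ⟨⟨h3.1, fun j' hj' => ?_⟩, h3.2⟩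
      rw [← hI'disj j j' i (hIs j hi) hj']
      exact hi

/-- The variables off `O` tested in the `j`-th group. -/
def Iof [DecidableEq ι] {n : ℕ} (e : Fin n → ι) (p : Fin 4 → ℕ) (O : Finset (Fin n))
    (f : ℕ → Multiset (ι × Bool)) (j : Fin 3) : Finset (Fin n) :=
  Oᶜ.filter fun i => ∃ a ∈ Ico (p j.castSucc) (p j.succ), 0 < ct (f a) (e i)

theorem mem_Iof [DecidableEq ι] {n : ℕ} {e : Fin n → ι} {p : Fin 4 → ℕ} {O : Finset (Fin n)}
    {f : ℕ → Multiset (ι × Bool)} {j : Fin 3} {i : Fin n} :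
    i ∈ Iof e p O f j ↔ i ∉ O ∧ ∃ a ∈ Ico (p j.castSucc) (p j.succ), 0 < ct (f a) (e i) := by
  unfold Iof; rw [Finset.mem_filter, Finset.mem_compl]

section

variable [DecidableEq ι] {P : Prog ι V} {n k m t : ℕ} {e : Fin n → ι} {z : ι → Bool}
  {F : Set (Fin n → Bool)} {σ : List (V × Multiset V)} {p : Fin 4 → ℕ} {O : Finset (Fin n)}

theorem lt_len {x : Fin n → Bool} {f : ℕ → Multiset (ι × Bool)}
    (h : Cut P k m t e z x σ p O f) {j : Fin 3} {a : ℕ}
    (ha : a ∈ Ico (p j.castSucc) (p j.succ)) : a ∈ range (σ.length + 1) := by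
  rw [Finset.mem_Ico] at ha
  have h1 : p j.succ ≤ p 3 := h.mono (Fin.le_last _)
  have h2 := h.p3
  rw [Finset.mem_range]
  omega

theorem uniq {x : Fin n → Bool} {f : ℕ → Multiset (ι × Bool)}
    (h : Cut P k m t e z x σ p O f) {i : Fin n} (hi : i ∉ O) {a a' : ℕ}
    (ha : a ∈ range (σ.length + 1)) (ha' : a' ∈ range (σ.length + 1))
    (hj : 0 < ct (f a) (e i)) (hj' : 0 < ct (f a') (e i)) : a = a' := by
  by_contra hne
  have h1 := h.once i hi
  have h2 : ct (f a) (e i) + ct (f a') (e i) ≤ ∑ a ∈ range (σ.length + 1), ct (f a) (e i) := by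
    rw [← Finset.sum_pair (f := fun a => ct (f a) (e i)) hne]
    refine Finset.sum_le_sum_of_subset fun c hc' => ?_
    rw [Finset.mem_insert, Finset.mem_singleton] at hc'
    rcases hc' with rfl | rfl <;> assumption
  omega

theorem card_Iof {x : Fin n → Bool} {f : ℕ → Multiset (ι × Bool)}
    (h : Cut P k m t e z x σ p O f) (j : Fin 3) : (Iof e p O f j).card = m := h.cnt j

theorem disj_Iof {x : Fin n → Bool} {f : ℕ → Multiset (ι × Bool)}
    (h : Cut P k m t e z x σ p O f) {j j' : Fin 3} (hne : j ≠ j') :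
    Disjoint (Iof e p O f j) (Iof e p O f j') := by
  rw [Finset.disjoint_left]
  intro i hi hi'
  rw [mem_Iof] at hi hi'
  obtain ⟨hiO, a, ha, hpos⟩ := hi
  obtain ⟨_, a', ha', hpos'⟩ := hi'
  have := uniq h hiO (lt_len h ha) (lt_len h ha') hpos hpos'
  rw [← this] at ha'
  exact hne (Ico_disj h.mono ha ha')

/-- The mixed tree. -/
theorem mixed (hD : StDer) (hM : StMix) (he : Function.Injective e)
    (hF : ∀ x : Fin n → Bool, P.Accepts (Function.extend e x z) → x ∈ F)
    (hH : ∀ x ∈ F, ∀ i, Function.update x i (!x i) ∉ F) {x y : Fin n → Bool}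
    {f g : ℕ → Multiset (ι × Bool)} (hx : Cut P k m t e z x σ p O f)
    (hy : Cut P k m t e z y σ p O g)
    (hxy : ∀ i ∈ O, x i = y i) (s : Finset (Fin 3))
    (h : ∀ i ∈ s.biUnion (Iof e p O f), i ∉ s.biUnion (Iof e p O g) → x i = y i) :
    s.biUnion (Iof e p O f) = s.biUnion (Iof e p O g) ∧
      mix (s.biUnion (Iof e p O f)) x y ∈ F := by
  classical
  set J := s.biUnion (Iof e p O f) with hJ
  set J' := s.biUnion (Iof e p O g) with hJ'
  set c : ℕ → Bool := fun a => decide (∃ j ∈ s, a ∈ Ico (p j.castSucc) (p j.succ)) with hc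
  have hder := hM ι V P P.source σ f g c hx.asm hy.asm
  obtain ⟨l, hl, htree⟩ := (hD ι V P P.source).2 _ hder
  have hmem : ∀ {u : ι × Bool}, u ∈ l → ∃ a ∈ range (σ.length + 1),
      ((∃ j ∈ s, a ∈ Ico (p j.castSucc) (p j.succ)) ∧ u ∈ f a) ∨
      ((¬ ∃ j ∈ s, a ∈ Ico (p j.castSucc) (p j.succ)) ∧ u ∈ g a) := by
    intro u hu
    rw [← Multiset.mem_coe, hl, Multiset.mem_sum] at hu
    obtain ⟨a, ha, hu⟩ := hu
    refine ⟨a, ha, ?_⟩
    by_cases hca : ∃ j ∈ s, a ∈ Ico (p j.castSucc) (p j.succ)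
    · left
      have : c a = true := by rw [hc]; simpa using hca
      rw [if_pos this] at hu
      exact ⟨hca, hu⟩
    · right
      have : ¬ c a = true := by rw [hc]; simpa using hca
      rw [if_neg this] at hu
      exact ⟨hca, hu⟩
  have hagr : Agrees (Function.extend e (mix J x y) z) l := by
    intro u hu
    obtain ⟨a, har, hcase⟩ := hmem hu
    by_cases hr : ∃ i, e i = u.1
    · obtain ⟨i, hi⟩ := hr
      rw [← hi, he.extend_apply]
      rcases hcase with ⟨⟨j, hjs, haj⟩, hua⟩ | ⟨hn, hua⟩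
      · -- a test of `x`
        have hxt := hx.agr a (Finset.mem_range.1 har) u hua
        rw [← hi, he.extend_apply] at hxt
        rw [← hxt]
        unfold mix
        by_cases hiO : i ∈ O
        · split_ifs
          · rfl
          · exact (hxy i hiO).symm
        · rw [if_pos]
          rw [hJ, Finset.mem_biUnion]
          exact ⟨j, hjs, mem_Iof.2 ⟨hiO, a, haj, ct_pos.2 ⟨u.2, by rw [hi]; exact hua⟩⟩⟩
      · -- a test of `y`
        have hyt := hy.agr a (Finset.mem_range.1 har) u hua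
        rw [← hi, he.extend_apply] at hyt
        rw [← hyt]
        unfold mix
        split_ifs with hiJ
        · by_cases hiO : i ∈ O
          · exact hxy i hiO
          refine h i hiJ fun hiJ' => ?_
          rw [hJ', Finset.mem_biUnion] at hiJ'
          obtain ⟨j', hj', hij'⟩ := hiJ'
          rw [mem_Iof] at hij'
          obtain ⟨_, a', ha', hpos'⟩ := hij'
          have heq := uniq hy hiO (lt_len hy ha') har hpos'
            (ct_pos.2 ⟨u.2, by rw [hi]; exact hua⟩)
          exact hn ⟨j', hj', heq ▸ ha'⟩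
        · rfl
    · rw [Function.extend_apply' _ _ _ hr]
      rcases hcase with ⟨_, hua⟩ | ⟨_, hua⟩
      · have hxt := hx.agr a (Finset.mem_range.1 har) u hua
        rwa [Function.extend_apply' _ _ _ hr] at hxt
      · have hyt := hy.agr a (Finset.mem_range.1 har) u hua
        rwa [Function.extend_apply' _ _ _ hr] at hyt
  have hin : mix J x y ∈ F := hF _ ⟨_, htree, hagr⟩
  refine ⟨?_, hin⟩
  have hsub : J' ⊆ J := by
    intro i hi
    rw [hJ', Finset.mem_biUnion] at hi
    obtain ⟨j', hj', hij'⟩ := hi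
    rw [mem_Iof] at hij'
    obtain ⟨hiO, a', ha', hpos'⟩ := hij'
    obtain ⟨b, hb⟩ := ct_pos.1 (tested he hF hH htree hagr i)
    rw [Multiset.mem_coe] at hb
    obtain ⟨a, har, hcase⟩ := hmem hb
    rcases hcase with ⟨⟨j, hjs, haj⟩, hua⟩ | ⟨hn, hua⟩
    · rw [hJ, Finset.mem_biUnion]
      exact ⟨j, hjs, mem_Iof.2 ⟨hiO, a, haj, ct_pos.2 ⟨b, hua⟩⟩⟩
    · have heq := uniq hy hiO (lt_len hy ha') har hpos' (ct_pos.2 ⟨b, hua⟩)
      exact absurd ⟨j', hj', heq ▸ ha'⟩ hn
  refine (Finset.eq_of_subset_of_card_le hsub ?_).symm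
  rw [hJ, hJ', Finset.card_biUnion fun a _ b _ hab => disj_Iof hx hab,
    Finset.card_biUnion fun a _ b _ hab => disj_Iof hy hab,
    Finset.sum_congr rfl fun j _ => card_Iof hx j, Finset.sum_congr rfl fun j _ => card_Iof hy j]

end

end Ext_

open Ext_

theorem stExt2 (hD : StDer) (hP : StPieces) (hM : StMix) (hC : StCount) (hG : StGroup) :
    StExt2 := by
  intro ι V _ _ P n k m b t B e z F he hF hH hb hm hn hB A hA
  classical
  have hcut : ∀ x : Fin n → Bool, ∃ σ p O f, x ∈ A → Cut P (k + 6 * b) m t e z x σ p O f := by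
    intro x
    by_cases hx : x ∈ A
    · obtain ⟨σ, p, O, f, h⟩ := exists_cut hD hP hG he hF hH hb hm hn (hA x hx)
      exact ⟨σ, p, O, f, fun _ => h⟩
    · exact ⟨[], fun _ => 0, ∅, fun _ => 0, fun h => absurd h hx⟩
  choose σ p O f hc using hcut
  set key : (Fin n → Bool) →
      List (V × Multiset V) × ((Fin 3 → ℕ) × (Finset (Fin n) × (Fin n → Bool))) :=
    fun x => (σ x, (fun j => p x j.succ, (O x, res (O x) x))) with hkey
  have hfib : ∀ a ∈ A.image key, (A.filter fun x => key x = a).card ≤ B := by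
    intro a ha
    refine hB _ (fun j x => Iof e (p x) (O x) (f x) j) ⟨?_, ?_, ?_⟩
    · intro j x hx
      exact (hc x (Finset.mem_filter.1 hx).1).cnt j
    · intro j j' hne x hx
      exact disj_Iof (hc x (Finset.mem_filter.1 hx).1) hne
    · intro s x hx y hy h
      rw [Finset.mem_filter] at hx hy
      have hk : key x = key y := hx.2.trans hy.2.symm
      rw [hkey] at hk
      simp only [Prod.mk.injEq] at hk
      obtain ⟨hσ, hp, hO, hr⟩ := hk
      have hcx := hc x hx.1
      have hcy := hc y hy.1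
      have hpxy : p x = p y := by
        funext j
        refine Fin.cases ?_ (fun j => ?_) j
        · rw [hcx.p0, hcy.p0]
        · exact congrFun hp j
      rw [← hσ, ← hO, ← hpxy] at hcy
      have hxy : ∀ i ∈ O x, x i = y i := by
        intro i hi
        have := congrFun hr i
        unfold res at this
        rw [if_pos hi, if_pos (hO ▸ hi)] at this
        exact this
      have hux : uni (fun j x => Iof e (p x) (O x) (f x) j) s x =
          s.biUnion (Iof e (p x) (O x) (f x)) := rfl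
      have huy : uni (fun j x => Iof e (p x) (O x) (f x) j) s y =
          s.biUnion (Iof e (p x) (O x) (f y)) := by
        rw [hO, hpxy]; rfl
      rw [hux, huy] at h ⊢
      exact mixed hD hM he hF hH hcx hcy hxy s h
  have h1 := Finset.card_le_mul_card_image A B hfib
  have h2 : A.image key ⊆ (A.image σ) ×ˢ
      ((Fintype.piFinset fun _ : Fin 3 => range (t + 2)) ×ˢ keys n (k + 6 * b)) := by
    intro a ha
    rw [Finset.mem_image] at ha
    obtain ⟨x, hx, rfl⟩ := ha
    have hcx := hc x hx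
    rw [Finset.mem_product, Finset.mem_product, Fintype.mem_piFinset]
    refine ⟨Finset.mem_image_of_mem _ hx, fun j => ?_, mem_keys hcx.cO x⟩
    have h3 : p x j.succ ≤ p x 3 := hcx.mono (Fin.le_last _)
    have h4 := hcx.p3
    have h5 := hcx.len
    rw [Finset.mem_range]
    change p x j.succ < t + 2
    omega
  have hS : (A.image σ).card ≤ (Fintype.card V + 1) ^ ((t + 2) * t) := by
    refine hC V t _ fun τ hτ => ?_
    rw [Finset.mem_image] at hτ
    obtain ⟨x, hx, rfl⟩ := hτ
    exact ⟨(hc x hx).len, (hc x hx).hol⟩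
  have h3 := Finset.card_le_card h2
  rw [Finset.card_product, Finset.card_product, Fintype.card_piFinset] at h3
  rw [Finset.prod_const, Finset.card_range, Finset.card_univ, Fintype.card_fin] at h3
  calc A.card ≤ B * (A.image key).card := h1
    _ ≤ B * ((Fintype.card V + 1) ^ ((t + 2) * t) * ((t + 2) ^ 3 *
          ((∑ j ∈ range (k + 6 * b + 1), n.choose j) * 2 ^ (k + 6 * b)))) :=
        Nat.mul_le_mul_left _ (h3.trans (Nat.mul_le_mul hS
          (Nat.mul_le_mul_left _ (card_keys n (k + 6 * b)))))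
    _ = _ := by ring

end Pool.Agent.Lib.SRO2
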