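import Pool.Agent.Lib.SRO2.Defs

/-!
# Groups of consecutive pieces of prescribed weight
-/

open Finset

namespace Pool.Agent.Lib.SRO2

namespace Group_

theorem next (t m b : ℕ) (w : ℕ → ℕ) (hw : ∀ j, w j < 2 * b) (a : ℕ) (ha : a ≤ t)
    (h : m ≤ ∑ i ∈ Ico a t, w i) :
    ∃ c, a ≤ c ∧ c ≤ t ∧ m ≤ ∑ i ∈ Ico a c, w i ∧ ∑ i ∈ Ico a c, w i < m + 2 * b := by
  classical
  have hb := hw 0
  have hex : ∃ c, a ≤ c ∧ m ≤ ∑ i ∈ Ico a c, w i := ⟨t, ha, h⟩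
  obtain ⟨h1, h2⟩ := Nat.find_spec hex
  refine ⟨Nat.find hex, h1, Nat.find_min' hex ⟨ha, h⟩, h2, ?_⟩
  rcases Nat.eq_or_lt_of_le h1 with h3 | h3
  · rw [← h3, Ico_self, sum_empty]
    omega
  · obtain ⟨d, hd⟩ : ∃ d, Nat.find hex = d + 1 := ⟨Nat.find hex - 1, by omega⟩
    have h4 : a ≤ d := by omega
    have h5 := Nat.find_min hex (m := d) (by omega)
    rw [hd, sum_Ico_succ_top h4]
    have h6 : ∑ i ∈ Ico a d, w i < m := by
      by_contra h7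
      exact h5 ⟨h4, by omega⟩
    have := hw d
    omega

end Group_

theorem stGroup : StGroup := by
  intro t m b w hw h
  have hs : ∀ a, a ≤ t → ∑ i ∈ Ico 0 a, w i + ∑ i ∈ Ico a t, w i = ∑ j ∈ range t, w j := by
    intro a ha
    rw [sum_Ico_consecutive _ (Nat.zero_le _) ha, Nat.Ico_zero_eq_range]
  have h0 := hs 0 (Nat.zero_le _)
  rw [Ico_self, sum_empty, zero_add] at h0
  obtain ⟨p, hp1, hp2, hp3, hp4⟩ := Group_.next t m b w hw 0 (Nat.zero_le _) (by omega)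
  have h1 := hs p hp2
  obtain ⟨q, hq1, hq2, hq3, hq4⟩ := Group_.next t m b w hw p hp2 (by omega)
  have h2 := hs q hq2
  have h3 := sum_Ico_consecutive w hp1 hq1
  obtain ⟨s, hs1, hs2, hs3, hs4⟩ := Group_.next t m b w hw q hq2 (by omega)
  refine ⟨![0, p, q, s], rfl, ?_, hs2, ?_⟩
  · rw [Fin.monotone_iff_le_succ]
    intro i
    fin_cases i
    · exact hp1
    · exact hq1
    · exact hs1
  · intro j
    fin_cases j
    · exact ⟨hp3, hp4⟩
    · exact ⟨hq3, hq4⟩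
    · exact ⟨hs3, hs4⟩

end Pool.Agent.Lib.SRO2
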