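import Pool.Agent.Lib.SRO2.Defs
import Pool.Agent.Lib.SRO.Main

/-!
# The lower bound for alternating programs, from the modules
-/

open Finset

namespace Pool.Agent.Lib.SRO2

open Pool.Agent.Lib.SRO Pool.Agent.Lib.SRO.Main_

theorem stMain2 (hX : StExt2) (hK : StCore) (hF : StFlip) (hL : StLang) (hP : StSplit)
    (hN : StNum) : StMain2 := by
  obtain ⟨c₀, hc₀, hc₀1, n₀, hnum⟩ := hN
  set c' : ℝ := min c₀ (1 / 10) with hc'
  have hc'0 : 0 < c' := lt_min hc₀ (by norm_num)
  have hc'c : c' ≤ c₀ := min_le_left _ _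
  have hc'1 : c' ≤ 1 / 10 := min_le_right _ _
  set t : ℕ := ⌈48 / c'⌉₊ with ht
  have ht48 : 48 / c' ≤ (t : ℝ) := Nat.le_ceil _
  set E : ℕ := (t + 2) * t with hE
  set Q : ℕ := (t + 2) ^ 3 with hQ
  set c : ℝ := min (c' / 4) (c₀ / (2 * (E + 1))) with hc
  have hc0 : 0 < c := lt_min (by positivity) (by positivity)
  have hcc' : c ≤ c' / 4 := min_le_left _ _
  have hcE : c * (E + 1) ≤ c₀ / 2 := by
    have h1 : c ≤ c₀ / (2 * (E + 1)) := min_le_right _ _
    calc c * (E + 1) ≤ c₀ / (2 * (E + 1)) * (E + 1) :=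
          mul_le_mul_of_nonneg_right h1 (by positivity)
      _ = c₀ / 2 := by field_simp
  set n₁ : ℕ := max (max n₀ 1000) (max t ⌈2 * (E + Q) / c₀⌉₊) with hn₁
  refine ⟨c, hc0, n₁ + n₁ ^ 4, ?_⟩
  intro N hNN V _ P hVc hPa k hk
  classical
  set n : ℕ := dim N with hn
  have hn1 : n₁ ≤ n := le_dim hNN
  have hn0 : n₀ ≤ n := ((le_max_left _ _).trans (le_max_left _ _)).trans hn1
  have hn1000 : 1000 ≤ n := ((le_max_right _ _).trans (le_max_left _ _)).trans hn1
  have hnt : t ≤ n := ((le_max_left _ _).trans (le_max_right _ _)).trans hn1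
  have hnE : 2 * (E + Q) / c₀ ≤ (n : ℝ) := by
    refine (Nat.le_ceil _).trans ?_
    exact_mod_cast ((le_max_right _ _).trans (le_max_right _ _)).trans hn1
  have hnR : (1000 : ℝ) ≤ n := by exact_mod_cast hn1000
  have hntR : (t : ℝ) ≤ n := by exact_mod_cast hnt
  have hc'n : 48 ≤ c' * n := by
    have := ht48.trans hntR
    rwa [div_le_iff₀ hc'0, mul_comm] at this
  -- the size of the pieces
  set b : ℕ := ⌊c' * n / 24⌋₊ with hb
  have hb1 : (b : ℝ) ≤ c' * n / 24 := Nat.floor_le (by positivity)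
  have hb2 : c' * n / 48 ≤ (b : ℝ) := by
    have := Nat.lt_floor_add_one (c' * n / 24)
    rw [← hb] at this
    linarith
  have hb0 : 1 ≤ b := by
    have : (1 : ℝ) ≤ b := by linarith
    exact_mod_cast this
  have htb : n ≤ t * b := by
    have : (n : ℝ) ≤ t * b := by
      calc (n : ℝ) = 48 / c' * (c' * n / 48) := by field_simp
        _ ≤ t * b := by gcongr
    exact_mod_cast this
  have hkR : (k : ℝ) ≤ c' / 4 * n := hk.trans (mul_le_mul_of_nonneg_right hcc' (by positivity))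
  set m : ℕ := ⌈(1 / 4 + 1 / 10 ^ 6 : ℝ) * n⌉₊ with hm
  have hm1 : (1 / 4 + 1 / 10 ^ 6 : ℝ) * n ≤ m := Nat.le_ceil _
  have hm2 : (m : ℝ) ≤ (1 / 4 + 1 / 10 ^ 6) * n + 1 := (Nat.ceil_lt_add_one (by positivity)).le
  have h10 : c' * n ≤ 1 / 10 * n := mul_le_mul_of_nonneg_right hc'1 (by positivity)
  have hmk : 3 * (m + 2 * b) + k ≤ n := by
    have : (3 * (m + 2 * b) + k : ℝ) ≤ n := by
      norm_num at hm2 ⊢
      linarith
    exact_mod_cast this
  set X : ℝ := 20 * (ROf n : ℝ) ^ 3 * 2 ^ n * Real.exp (-(n / 10 ^ 12)) with hXdef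
  have hX0 : 0 ≤ X := by positivity
  set B : ℕ := ⌊X⌋₊ with hB
  have hBX : (B : ℝ) ≤ X := Nat.floor_le hX0
  set e : Fin n → Fin N := Fin.castLE (dim_le N) with he
  have hinj : Function.Injective e := Fin.castLE_injective _
  have himg : (univ.filter fun i : Fin N => (i : ℕ) < n) = univ.image e := by
    ext i
    rw [Finset.mem_filter, Finset.mem_image]
    constructor
    · rintro ⟨_, h⟩
      exact ⟨⟨i, h⟩, Finset.mem_univ _, by rw [he]; rfl⟩
    · rintro ⟨j, _, rfl⟩
      exact ⟨Finset.mem_univ _, by rw [he]; exact j.2⟩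
  rw [himg]
  have hR1 : 1 ≤ ROf n := Nat.one_le_pow _ _ (by omega)
  set Sk : ℕ := (∑ j ∈ range (k + 6 * b + 1), n.choose j) * 2 ^ (k + 6 * b) with hSk
  set G : ℕ := (Fintype.card V + 1) ^ E * Q * Sk * B with hG
  -- one seed
  have hgood : ∀ z : Fin N → Bool, Hard (Fq n (coef N z)) (ROf n) →
      Nat.card {x : Fin n → Bool // P.AcceptsFew (univ.image e) k (Function.extend e x z)} ≤
        G := by
    intro z hz
    have h := hX (Fin N) V P n k m b t B e z (Fq n (coef N z)) hinj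
      (fun x hx => (hL N x z).1 (hPa _ hx)) (hF n (coef N z)) hb0 hmk htb
      (fun X' I hS => by
        refine Nat.le_floor ?_
        exact hK n m (ROf n) (Fq n (coef N z)) X' I hR1 hm1 hm2 (by omega) hz hS)
      (univ.filter fun x => P.AcceptsFew (univ.image e) k (Function.extend e x z))
      (fun x hx => (Finset.mem_filter.1 hx).2)
    rw [Nat.card_eq_fintype_card, Fintype.card_subtype]
    exact h
  have hbad : ∀ z : Fin N → Bool,
      Nat.card {x : Fin n → Bool // P.AcceptsFew (univ.image e) k (Function.extend e x z)} ≤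
        2 ^ n := by
    intro z
    rw [Nat.card_eq_fintype_card]
    refine (Fintype.card_subtype_le _).trans ?_
    rw [Fintype.card_fun, Fintype.card_bool, Fintype.card_fin]
  have hsum : ∑ z : Fin N → Bool, Nat.card
      {x : Fin n → Bool // P.AcceptsFew (univ.image e) k (Function.extend e x z)} ≤
      2 ^ N * G + 2 ^ N := by
    calc ∑ z : Fin N → Bool, Nat.card
          {x : Fin n → Bool // P.AcceptsFew (univ.image e) k (Function.extend e x z)}
        ≤ ∑ z : Fin N → Bool, (G + if ¬ Hard (Fq n (coef N z)) (ROf n) then 2 ^ n else 0) := by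
          refine Finset.sum_le_sum fun z _ => ?_
          by_cases hz : Hard (Fq n (coef N z)) (ROf n)
          · rw [if_neg (not_not.2 hz), add_zero]; exact hgood z hz
          · rw [if_pos hz]; exact (hbad z).trans (Nat.le_add_left _ _)
      _ = 2 ^ N * G + Nat.card {z : Fin N → Bool // ¬ Hard (Fq n (coef N z)) (ROf n)} * 2 ^ n := by
          rw [Finset.sum_add_distrib, Finset.sum_const, Finset.card_univ, Fintype.card_fun,
            Fintype.card_bool, Fintype.card_fin, smul_eq_mul, ← Finset.sum_filter,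
            Finset.sum_const, smul_eq_mul, Nat.card_eq_fintype_card, Fintype.card_subtype]
      _ ≤ 2 ^ N * G + 2 ^ N := Nat.add_le_add_left (hP N (by omega)) _
  have hfin := (dc hinj (fun y => P.AcceptsFew (univ.image e) k y)).trans hsum
  have hfinR : (Nat.card {y : Fin N → Bool // P.AcceptsFew (univ.image e) k y} : ℝ) * 2 ^ n ≤
      2 ^ N * (G + 1) := by
    have : ((Nat.card {y : Fin N → Bool // P.AcceptsFew (univ.image e) k y} * 2 ^ n : ℕ) : ℝ) ≤
        ((2 ^ N * G + 2 ^ N : ℕ) : ℝ) := by exact_mod_cast hfin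
    push_cast at this
    linarith
  -- the number of signatures
  have hVE : ((Fintype.card V : ℝ) + 1) ^ E * Q ≤ 2 ^ ((E : ℝ) + Q + c * E * n) := by
    have h1 : (Fintype.card V : ℝ) + 1 ≤ 2 ^ (1 + c * n) := by
      rw [Real.rpow_add (by norm_num), Real.rpow_one]
      have : (1 : ℝ) ≤ 2 ^ (c * n) := Real.one_le_rpow (by norm_num) (by positivity)
      linarith
    have h2 : (Q : ℝ) ≤ 2 ^ (Q : ℝ) := by
      rw [Real.rpow_natCast]
      exact_mod_cast Nat.lt_two_pow_self.le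
    calc ((Fintype.card V : ℝ) + 1) ^ E * Q ≤ (2 ^ (1 + c * n)) ^ E * 2 ^ (Q : ℝ) := by gcongr
      _ = 2 ^ ((E : ℝ) + Q + c * E * n) := by
          rw [← Real.rpow_natCast, ← Real.rpow_mul (by norm_num), ← Real.rpow_add (by norm_num)]
          congr 1
          ring
  have hGR : (G : ℝ) + 1 ≤ 2 ^ ((n : ℝ) - c * n) := by
    have h2 := hnum n (k + 6 * b) hn0 (by
      push_cast
      have : c' * n ≤ c₀ * n := mul_le_mul_of_nonneg_right hc'c (by positivity)
      linarith)
    have h3 : (G : ℝ) ≤ ((Fintype.card V : ℝ) + 1) ^ E * Q * (Sk * X) := by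
      rw [hG]; push_cast
      rw [mul_assoc]
      exact mul_le_mul_of_nonneg_left (mul_le_mul_of_nonneg_left hBX (by positivity))
        (by positivity)
    have h4 : (Sk : ℝ) * X + 1 ≤ 2 ^ ((n : ℝ) - c₀ * n) := h2
    have h5 : (1 : ℝ) ≤ ((Fintype.card V : ℝ) + 1) ^ E * Q := by
      have h6 : (1 : ℝ) ≤ ((Fintype.card V : ℝ) + 1) ^ E := one_le_pow₀ (by
        have : (0 : ℝ) ≤ Fintype.card V := Nat.cast_nonneg _
        linarith)
      have h7 : (1 : ℝ) ≤ Q := by
        have : 1 ≤ Q := Nat.one_le_pow _ _ (by omega)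
        exact_mod_cast this
      exact one_le_mul_of_one_le_of_one_le h6 h7
    calc (G : ℝ) + 1 ≤ ((Fintype.card V : ℝ) + 1) ^ E * Q * (Sk * X) +
          ((Fintype.card V : ℝ) + 1) ^ E * Q * 1 := by linarith
      _ = ((Fintype.card V : ℝ) + 1) ^ E * Q * (Sk * X + 1) := by ring
      _ ≤ 2 ^ ((E : ℝ) + Q + c * E * n) * 2 ^ ((n : ℝ) - c₀ * n) := by gcongr
      _ = 2 ^ ((E : ℝ) + Q + c * E * n + (n - c₀ * n)) := (Real.rpow_add (by norm_num) _ _).symm
      _ ≤ 2 ^ ((n : ℝ) - c * n) := by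
          refine Real.rpow_le_rpow_of_exponent_le (by norm_num) ?_
          rw [div_le_iff₀ hc₀] at hnE
          have h8 := mul_le_mul_of_nonneg_right hcE (Nat.cast_nonneg (α := ℝ) n)
          nlinarith
  have h2n : (0 : ℝ) < 2 ^ n := by positivity
  have hfin2 : (Nat.card {y : Fin N → Bool // P.AcceptsFew (univ.image e) k y} : ℝ) * 2 ^ n ≤
      2 ^ ((N : ℝ) - c * n) * 2 ^ n := by
    refine hfinR.trans ((mul_le_mul_of_nonneg_left hGR (by positivity)).trans (le_of_eq ?_))
    rw [Real.rpow_sub (by norm_num), Real.rpow_sub (by norm_num), Real.rpow_natCast,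
      Real.rpow_natCast]
    ring
  exact le_of_mul_le_mul_right hfin2 h2n

theorem stOnce2 (hM : StMain2) (hD : StDens) : StOnce2 := by
  obtain ⟨c, hc, N₀, hmain⟩ := hM
  set n₁ : ℕ := ⌈4 / c⌉₊ + 2 with hn₁
  refine ⟨c / 2, by positivity, max N₀ (n₁ + n₁ ^ 4), ?_⟩
  intro N hNN V _ P hPa hR
  classical
  have hN0 : N₀ ≤ N := (le_max_left _ _).trans hNN
  have hn1 : n₁ ≤ dim N := le_dim ((le_max_right _ _).trans hNN)
  set n : ℕ := dim N with hn
  have hn2 : 2 ≤ n := by omega
  have hcn : 4 ≤ c * n := by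
    have h1 : 4 / c ≤ (n : ℝ) := by
      refine (Nat.le_ceil (4 / c)).trans ?_
      have : ⌈4 / c⌉₊ ≤ n := by omega
      exact_mod_cast this
    rw [div_le_iff₀ hc] at h1
    linarith
  by_contra hcon
  rw [not_le] at hcon
  have hN4 : (N : ℝ) ^ (1 / 4 : ℝ) ≤ 2 * n := by
    have h5 : N ≤ (2 * n) ^ 4 := by
      have h6 := lt_dim N
      rw [← hn] at h6
      have h7 := pow_bd n hn2
      omega
    have h8 : (N : ℝ) ≤ (2 * n : ℝ) ^ (4 : ℕ) := by exact_mod_cast h5
    calc (N : ℝ) ^ (1 / 4 : ℝ) ≤ ((2 * n : ℝ) ^ (4 : ℕ)) ^ (1 / 4 : ℝ) :=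
          Real.rpow_le_rpow (by positivity) h8 (by norm_num)
      _ = 2 * n := by
          rw [← Real.rpow_natCast, ← Real.rpow_mul (by positivity)]
          norm_num
  have hV : (Fintype.card V : ℝ) ≤ 2 ^ (c * n) := by
    refine hcon.le.trans (Real.rpow_le_rpow_of_exponent_le (by norm_num) ?_)
    have := mul_le_mul_of_nonneg_left hN4 (by positivity : 0 ≤ c / 2)
    linarith
  have h := hmain N hN0 V P hV (fun y hy => (hPa y).1 hy) 0 (by
    rw [Nat.cast_zero]
    positivity)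
  have hd := hD N hn2
  have hle : Nat.card {y : Fin N → Bool // List.ofFn y ∈ Quartic} ≤ Nat.card {y : Fin N → Bool //
      P.AcceptsFew (univ.filter fun i : Fin N => (i : ℕ) < n) 0 y} := by
    refine Nat.card_le_card_of_injective (fun y => ⟨y.1, ?_⟩) ?_
    · obtain ⟨l, h1, h2⟩ := (hPa y.1).2 y.2
      refine ⟨l, h1, h2, ?_⟩
      have hnd := hR l h1 ⟨y.1, h2⟩
      rw [Nat.le_zero, Finset.card_eq_zero, Finset.filter_eq_empty_iff]
      intro i _
      have := List.nodup_iff_count_le_one.1 hnd i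
      omega
    · intro y y' h
      rw [Subtype.mk.injEq] at h
      exact Subtype.ext h
  have h1 : (2 : ℝ) ^ (N : ℝ) ≤ 8 * 2 ^ ((N : ℝ) - c * n) := by
    have h2 : ((2 ^ N : ℕ) : ℝ) ≤ ((8 * Nat.card {y : Fin N → Bool // List.ofFn y ∈ Quartic} : ℕ)
        : ℝ) := by exact_mod_cast hd
    have h3 : (Nat.card {y : Fin N → Bool // List.ofFn y ∈ Quartic} : ℝ) ≤
        Nat.card {y : Fin N → Bool //
          P.AcceptsFew (univ.filter fun i : Fin N => (i : ℕ) < n) 0 y} := by
      exact_mod_cast hle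
    push_cast at h2
    rw [Real.rpow_natCast]
    linarith
  have h8 : (8 : ℝ) = 2 ^ (3 : ℝ) := by norm_num
  rw [h8, ← Real.rpow_add (by norm_num)] at h1
  have h9 := (Real.rpow_le_rpow_left_iff (by norm_num : (1 : ℝ) < 2)).1 h1
  linarith

end Pool.Agent.Lib.SRO2
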