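import Pool.Agent.Lib.SRO2.Pieces

/-!
# Plugging together pieces of two trees
-/

open Finset

namespace Pool.Agent.Lib.SRO2

open Pool.Agent.Lib.SRO

namespace Mix_

variable {ι V : Type} {P : Prog ι V}

theorem mix (r : V) (f f' : ℕ → Multiset (ι × Bool)) (c : ℕ → Bool) :
    ∀ (σ : List (V × Multiset V)) (i : ℕ) (K : Multiset V), Asm P r σ f i K → Asm P r σ f' i K →
      Der P r (∑ j ∈ range (σ.length + 1), if c (i + j) then f (i + j) else f' (i + j)) K
  | [], i, K, h, h' => by
    have e : (∑ j ∈ range (([] : List (V × Multiset V)).length + 1),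
        if c (i + j) then f (i + j) else f' (i + j)) = if c i then f i else f' i := by
      rw [List.length_nil, zero_add, Finset.sum_range_one, add_zero]
    rw [e]
    split_ifs
    · exact h
    · exact h'
  | (g, H) :: σ, i, K, h, h' => by
    obtain ⟨h1, H₁, h2, h3⟩ := h
    obtain ⟨h1', H₂, h2', h3'⟩ := h'
    have e : H₁ = H₂ := by
      have : H + H₁ = H + H₂ := h2.symm.trans h2'
      exact add_left_cancel this
    subst e
    have ih := mix r f f' c σ (i + 1) (g ::ₘ H₁) h3 h3'
    have hd : Der P g (if c i then f i else f' i) H := by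
      split_ifs
      · exact h1
      · exact h1'
    have := stSubst ι V P r g _ _ H₁ H ih hd
    rw [h2]
    convert this using 1
    · rw [List.length_cons, Finset.sum_range_succ']
      congr 1
      refine Finset.sum_congr rfl fun j _ => ?_
      rw [show i + (j + 1) = i + 1 + j by omega]
    · exact add_comm _ _

end Mix_

theorem stMix : StMix := by
  intro ι V P r σ f f' c h h'
  have := Mix_.mix r f f' c σ 0 0 h h'
  simpa only [zero_add] using this

end Pool.Agent.Lib.SRO2
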