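import Pool.Agent.Lib.SRO2.Defs

/-!
# Decomposition of accepting trees into pieces
-/

open Finset

namespace Pool.Agent.Lib.SRO2

open Pool.Agent.Lib.SRO

namespace Pieces_

variable {ι V : Type} {P : Prog ι V}

theorem der_of_tree {u : V} {l : List (ι × Bool)} (h : Tree P u l) :
    Der P u (l : Multiset (ι × Bool)) 0 := by
  induction h with
  | sink => exact Der.sink
  | free he _ ih => exact Der.free he ih
  | test he _ ih => exact Der.test he ih
  | fork he _ _ ih ih' =>
    have := Der.fork he ih ih'
    rwa [add_zero, Multiset.coe_add] at this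

theorem tree_of_der {u : V} {s : Multiset (ι × Bool)} {H : Multiset V} (h : Der P u s H) :
    H = 0 → ∃ l : List (ι × Bool), (l : Multiset (ι × Bool)) = s ∧ Tree P u l := by
  induction h with
  | hole u => intro h; exact absurd h (Multiset.singleton_ne_zero u)
  | sink => intro _; exact ⟨[], rfl, Tree.sink⟩
  | free he _ ih =>
    intro h
    obtain ⟨l, h1, h2⟩ := ih h
    exact ⟨l, h1, Tree.free he h2⟩
  | @test u v i b s H he _ ih =>
    intro h
    obtain ⟨l, h1, h2⟩ := ih h
    exact ⟨(i, b) :: l, by rw [← h1, Multiset.cons_coe], Tree.test he h2⟩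
  | fork he _ _ ih ih' =>
    intro h
    rw [add_eq_zero] at h
    obtain ⟨l, h1, h2⟩ := ih h.1
    obtain ⟨l', h1', h2'⟩ := ih' h.2
    exact ⟨l ++ l', by rw [← h1, ← h1', Multiset.coe_add], Tree.fork he h2 h2'⟩

theorem subst [DecidableEq V] {u v : V} {s s' : Multiset (ι × Bool)} {K H' : Multiset V}
    (h : Der P u s K) (h' : Der P v s' H') : v ∈ K → Der P u (s + s') (K.erase v + H') := by
  induction h with
  | hole u =>
    intro hv
    rw [Multiset.mem_singleton] at hv
    subst hv
    rw [Multiset.erase_singleton, zero_add, zero_add]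
    exact h'
  | sink => intro hv; exact absurd hv (Multiset.notMem_zero _)
  | free he _ ih => exact fun hv => Der.free he (ih hv)
  | test he _ ih =>
    intro hv
    rw [Multiset.cons_add]
    exact Der.test he (ih hv)
  | @fork u x y s₁ s₂ H₁ H₂ he h1 h2 ih ih' =>
    intro hv
    by_cases hv1 : v ∈ H₁
    · rw [Multiset.erase_add_left_pos _ hv1]
      have := Der.fork he (ih hv1) h2
      convert this using 1
      · abel
      · abel
    · have hv2 : v ∈ H₂ := by
        rcases Multiset.mem_add.1 hv with h | h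
        · exact absurd h hv1
        · exact h
      rw [Multiset.erase_add_right_pos _ hv2]
      have := Der.fork he h1 (ih' hv2)
      convert this using 1
      · abel
      · abel

end Pieces_

open Pieces_

theorem stDer : StDer := fun ι V P u =>
  ⟨fun _ h => der_of_tree h, fun _ h => tree_of_der h rfl⟩

theorem stSubst : StSubst := by
  classical
  intro ι V P u v s s' H H' h h'
  have := subst h h' (Multiset.mem_cons_self v H)
  rwa [Multiset.erase_cons_head] at this

theorem stCut : StCut := by
  intro ι V P w b hb hw u s H h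
  induction h with
  | hole u =>
    intro h
    rw [Multiset.map_zero, Multiset.sum_zero] at h
    omega
  | sink =>
    intro h
    rw [Multiset.map_zero, Multiset.sum_zero] at h
    omega
  | free he _ ih =>
    intro h
    obtain ⟨v', s₁, s₂, H₁, H₂, h1, h2, h3, h4, h5, h6⟩ := ih h
    exact ⟨v', s₁, s₂, H₁, H₂, h1, Der.free he h2, h3, h4, h5, h6⟩
  | @test u v i c s H he hd ih =>
    intro h
    rw [Multiset.map_cons, Multiset.sum_cons] at h
    by_cases hs : 2 * b ≤ (s.map w).sum
    · obtain ⟨v', s₁, s₂, H₁, H₂, h1, h2, h3, h4, h5, h6⟩ := ih hs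
      refine ⟨v', s₁, (i, c) ::ₘ s₂, H₁, H₂, h1, Der.test he h2, ?_, h4, h5, h6⟩
      rw [h3, Multiset.add_cons]
    · have hw1 := hw (i, c)
      refine ⟨v, s, {(i, c)}, H, 0, hd, ?_, ?_, (add_zero _).symm, by omega, by omega⟩
      · exact Der.test he (Der.hole v)
      · rw [← Multiset.singleton_add, add_comm]
  | @fork u x y s₁ s₂ H₁ H₂ he hd1 hd2 ih ih' =>
    intro h
    rw [Multiset.map_add, Multiset.sum_add] at h
    by_cases hs : 2 * b ≤ (s₁.map w).sum
    · obtain ⟨v', t₁, t₂, K₁, K₂, h1, h2, h3, h4, h5, h6⟩ := ih hs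
      refine ⟨v', t₁, t₂ + s₂, K₁, K₂ + H₂, h1, ?_, ?_, ?_, h5, h6⟩
      · have := Der.fork he h2 hd2
        rwa [Multiset.cons_add] at this
      · rw [h3]; abel
      · rw [h4]; abel
    by_cases hs' : 2 * b ≤ (s₂.map w).sum
    · obtain ⟨v', t₁, t₂, K₁, K₂, h1, h2, h3, h4, h5, h6⟩ := ih' hs'
      refine ⟨v', t₁, s₁ + t₂, K₁, H₁ + K₂, h1, ?_, ?_, ?_, h5, h6⟩
      · have := Der.fork he hd1 h2
        rwa [Multiset.add_cons] at this
      · rw [h3]; abel
      · rw [h4]; abel
    by_cases hs1 : b ≤ (s₁.map w).sum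
    · refine ⟨x, s₁, s₂, H₁, H₂, hd1, ?_, rfl, rfl, hs1, by omega⟩
      have := Der.fork he (Der.hole x) hd2
      rwa [zero_add, Multiset.singleton_add] at this
    · refine ⟨y, s₂, s₁, H₂, H₁, hd2, ?_, add_comm _ _, add_comm _ _, by omega, by omega⟩
      have := Der.fork he hd1 (Der.hole y)
      rwa [add_zero, add_comm H₁, Multiset.singleton_add] at this

namespace Pieces_

variable {ι V : Type} {P : Prog ι V}

theorem asm_congr {r : V} {f f' : ℕ → Multiset (ι × Bool)} :
    ∀ (σ : List (V × Multiset V)) (i : ℕ) (K : Multiset V), (∀ j, i ≤ j → f j = f' j) →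
      Asm P r σ f i K → Asm P r σ f' i K := by
  intro σ
  induction σ with
  | nil =>
    intro i K hff h
    unfold Asm at h ⊢
    rw [← hff i le_rfl]
    exact h
  | cons p σ ih =>
    obtain ⟨g, H⟩ := p
    intro i K hff h
    obtain ⟨h1, H', h2, h3⟩ := h
    refine ⟨?_, H', h2, ih _ _ (fun j hj => hff j (by omega)) h3⟩
    rw [← hff i le_rfl]
    exact h1

theorem pieces (w : ι × Bool → ℕ) {b : ℕ} (hb : 1 ≤ b) (hw : ∀ t, w t ≤ 1) (r : V) :
    ∀ (W : ℕ) (s : Multiset (ι × Bool)) (K : Multiset V) (i : ℕ), (s.map w).sum = W →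
      Der P r s K →
      ∃ (σ : List (V × Multiset V)) (f : ℕ → Multiset (ι × Bool)),
        Asm P r σ f i K ∧ ∑ j ∈ range (σ.length + 1), f (i + j) = s ∧
        σ.length * b ≤ W ∧ (∀ p ∈ σ, p.2.card ≤ K.card + σ.length) ∧
        ∀ j, ((f j).map w).sum < 2 * b := by
  classical
  intro W
  induction W using Nat.strong_induction_on with
  | _ W ih =>
    intro s K i hs hd
    by_cases h2b : 2 * b ≤ (s.map w).sum
    · obtain ⟨v, s₁, s₂, H₁, H₂, h1, h2, h3, h4, h5, h6⟩ := stCut ι V P w b hb hw r s K hd h2b
      have hW : (s₁.map w).sum + (s₂.map w).sum = W := by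
        rw [← hs, h3, Multiset.map_add, Multiset.sum_add]
      obtain ⟨σ, f, g1, g2, g3, g4, g5⟩ := ih _ (by omega) s₂ (v ::ₘ H₂) (i + 1) rfl h2
      refine ⟨(v, H₁) :: σ, fun j => if j = i then s₁ else f j, ?_, ?_, ?_, ?_, ?_⟩
      · refine ⟨?_, H₂, h4, asm_congr σ _ _ (fun j hj => ?_) g1⟩
        · simpa using h1
        · rw [if_neg (by omega)]
      · rw [List.length_cons, sum_range_succ']
        dsimp only
        rw [add_zero, if_pos rfl, h3, add_comm]
        congr 1
        rw [← g2]
        refine sum_congr rfl fun j _ => ?_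
        rw [if_neg (by omega)]
        congr 1
        omega
      · rw [List.length_cons, add_mul]
        omega
      · intro p hp
        rw [List.mem_cons] at hp
        rw [List.length_cons]
        rcases hp with rfl | hp
        · rw [h4, Multiset.card_add]
          simp only
          omega
        · have := g4 p hp
          rw [Multiset.card_cons] at this
          rw [h4, Multiset.card_add]
          omega
      · intro j
        dsimp only
        split_ifs
        · exact h6
        · exact g5 j
    · refine ⟨[], fun j => if j = i then s else 0, ?_, ?_, ?_, ?_, ?_⟩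
      · unfold Asm
        dsimp only
        rw [if_pos rfl]
        exact hd
      · simp
      · simp
      · simp
      · intro j
        by_cases hj : j = i
        · simp only [hj, if_true]
          exact not_le.1 h2b
        · simp only [hj, if_false, Multiset.map_zero, Multiset.sum_zero]
          omega

end Pieces_

theorem stPieces : StPieces := by
  intro ι V P w b hb hw r s hd
  obtain ⟨σ, f, g1, g2, g3, g4, g5⟩ := pieces w hb hw r _ s 0 0 rfl hd
  refine ⟨σ, f, g1, ?_, g3, ?_, g5⟩
  · simpa using g2
  · intro p hp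
    simpa using g4 p hp

end Pool.Agent.Lib.SRO2
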