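import Pool.Agent.Lib.SRO2.Defs
import Pool.Agent.Lib.SRO.Main
import Pool.Agent.Lib.SRO.Flip
import Pool.Agent.Lib.SRO.Lang

/-!
# Trees with few tests repeat few variables
-/

open Finset

namespace Pool.Agent.Lib.SRO2

open Pool.Agent.Lib.SRO

theorem stTime : StTime := by
  classical
  intro N T V P hP y hy
  obtain ⟨l, h1, h2, h3⟩ := hy
  refine ⟨l, h1, h2, ?_⟩
  set D : Finset (Fin N) := univ.filter fun i : Fin N => (i : ℕ) < dim N with hD
  set e : Fin (dim N) → Fin N := Fin.castLE (dim_le N) with he
  have hinj : Function.Injective e := Fin.castLE_injective _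
  have himg : D = univ.image e := by
    ext i
    rw [hD, Finset.mem_filter, Finset.mem_image]
    constructor
    · rintro ⟨_, h⟩
      exact ⟨⟨i, h⟩, Finset.mem_univ _, by rw [he]; rfl⟩
    · rintro ⟨j, _, rfl⟩
      exact ⟨Finset.mem_univ _, by rw [he]; exact j.2⟩
  have hcard : D.card = dim N := by
    rw [himg, card_image_of_injective _ hinj, card_univ, Fintype.card_fin]
  -- every variable of `D` is tested
  have htest : ∀ a ∈ D, 1 ≤ Ext_.ct l a := by
    intro a ha
    rw [himg, mem_image] at ha
    obtain ⟨i, _, rfl⟩ := ha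
    by_contra hc
    set x : Fin (dim N) → Bool := fun i => y (e i) with hx
    have hy0 : Function.extend e x y = y := by
      funext a
      by_cases h : ∃ i, e i = a
      · obtain ⟨i, rfl⟩ := h
        rw [hinj.extend_apply]
      · rw [Function.extend_apply' _ _ _ h]
    have m1 : x ∈ Fq (dim N) (coef N y) := by
      rw [← stLang N x y, hy0]
      exact hP y ⟨l, h1, h2⟩
    have m2 : Function.update x i (!x i) ∈ Fq (dim N) (coef N y) := by
      rw [← stLang N _ y]
      refine hP _ ⟨l, h1, fun t ht => ?_⟩
      rw [← h2 t ht]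
      by_cases h : ∃ i', e i' = t.1
      · obtain ⟨i', h'⟩ := h
        rw [← h', hinj.extend_apply, Function.update_of_ne]
        rintro rfl
        exact hc (Ext_.ct_pos.2 ⟨t.2, by rw [h']; exact ht⟩)
      · rw [Function.extend_apply' _ _ _ h]
    exact stFlip (dim N) (coef N y) x m1 i m2
  rw [Ext_.countP_eq] at h3
  have h4 : D.card + (D.filter fun i => 2 ≤ (l.map Prod.fst).count i).card ≤
      ∑ a ∈ D, Ext_.ct l a := by
    have h5 : D.card + (D.filter fun i => 2 ≤ (l.map Prod.fst).count i).card =
        ∑ a ∈ D, (1 + if 2 ≤ (l.map Prod.fst).count a then 1 else 0) := by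
      rw [sum_add_distrib, ← card_eq_sum_ones, ← card_filter]
    rw [h5]
    refine sum_le_sum fun a ha => ?_
    have h6 := htest a ha
    split_ifs with h
    · exact h
    · exact h6
  rw [hcard] at h4
  omega

end Pool.Agent.Lib.SRO2
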